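import Pool.Agent.W133.DQ.StB

set_option autoImplicit false

/-!
DQ-CONJL: homomorphisms are invariant under conjugation by translations and dilations.
-/

namespace Pool.Agent.W978.DQ

open Pool.Agent.W133.DQ

/-- conjugation by maps which agree on the support -/
theorem conj_eq {f σ T : Equiv.Perm P2} {R : ℝ} (hf : ∀ p, R < ‖p‖ → f p = p)
    (hσ : ∀ p, ‖p‖ ≤ R → σ p = T p) : T * f * T⁻¹ = σ * f * σ⁻¹ := by
  have hball : ∀ p, ‖p‖ ≤ R → ‖f p‖ ≤ R := by
    intro p hp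
    by_contra hcon
    push Not at hcon
    have h1 := f.injective (hf (f p) hcon)
    rw [h1] at hcon
    exact absurd hp (not_le.mpr hcon)
  apply Equiv.ext
  intro q
  rw [Equiv.Perm.mul_apply, Equiv.Perm.mul_apply, Equiv.Perm.mul_apply, Equiv.Perm.mul_apply]
  obtain ⟨p, rfl⟩ : ∃ p, q = σ p := ⟨σ⁻¹ q, (σ.apply_symm_apply q).symm⟩
  have e1 : σ⁻¹ (σ p) = p := σ.symm_apply_apply p
  rw [e1]
  by_cases hp : ‖p‖ ≤ R
  · have e2 : T⁻¹ (σ p) = p := by
      rw [hσ p hp]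
      exact T.symm_apply_apply p
    rw [e2, hσ _ (hball p hp)]
  · push Not at hp
    rw [hf p hp]
    have h2 : R < ‖T⁻¹ (σ p)‖ := by
      by_contra hcon
      push Not at hcon
      have h3 := hσ _ hcon
      have e3 : T (T⁻¹ (σ p)) = σ p := T.apply_symm_apply _
      rw [e3] at h3
      have h4 := σ.injective h3
      rw [h4] at hcon
      exact absurd hp (not_lt.mpr hcon)
    rw [hf _ h2]
    exact T.apply_symm_apply _

theorem hom_conj {L : Equiv.Perm P2 → ℝ} (hL : HomOn DC L) {f σ : Equiv.Perm P2} (hf : f ∈ DC)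
    (hσ : σ ∈ DC) : L (σ * f * σ⁻¹) = L f := by
  have h1 : L 1 = 0 := by
    have := hL 1 DC.one_mem 1 DC.one_mem
    rw [mul_one] at this
    linarith
  have h2 := hL σ hσ σ⁻¹ (DC.inv_mem hσ)
  rw [mul_inv_cancel, h1] at h2
  rw [hL _ (DC.mul_mem hσ hf) _ (DC.inv_mem hσ), hL _ hσ _ hf]
  linarith

/-- the dilation -/
noncomputable def dl (a : ℝ) (ha : 0 < a) : Equiv.Perm P2 where
  toFun p := a • p
  invFun p := a⁻¹ • p
  left_inv p := by
    show a⁻¹ • (a • p) = p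
    rw [smul_smul, inv_mul_cancel₀ ha.ne', one_smul]
  right_inv p := by
    show a • (a⁻¹ • p) = p
    rw [smul_smul, mul_inv_cancel₀ ha.ne', one_smul]

theorem conjl (h : S_TRDC) : S_CONJL := by
  intro L hL
  refine ⟨?_, ?_⟩
  · intro f hf v
    obtain ⟨_, R, hR⟩ := mem_DC.mp hf
    obtain ⟨σ, hσ, hσ2⟩ := h.1 R v
    have e : tr v * f * (tr v)⁻¹ = σ * f * σ⁻¹ := conj_eq hR hσ2
    rw [e]
    exact ⟨DC.mul_mem (DC.mul_mem hσ hf) (DC.inv_mem hσ), hom_conj hL hf hσ⟩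
  · intro f hf g hg a ha hga
    obtain ⟨_, R, hR⟩ := mem_DC.mp hf
    obtain ⟨σ, hσ, hσ2⟩ := h.2 R a ha
    have e : dl a ha * f * (dl a ha)⁻¹ = σ * f * σ⁻¹ := conj_eq hR hσ2
    have e2 : g = dl a ha * f * (dl a ha)⁻¹ := by
      apply Equiv.ext
      intro q
      rw [Equiv.Perm.mul_apply, Equiv.Perm.mul_apply]
      show g q = a • f (a⁻¹ • q)
      rw [← hga, smul_smul, mul_inv_cancel₀ ha.ne', one_smul]
    rw [e2, e]
    exact hom_conj hL hf hσ

end Pool.Agent.W978.DQ
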